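import Pool.Agent.Helper7.SC.Frames

set_option autoImplicit false

/-!
Frames of the sparse few digits theorem (DP).
-/

namespace Pool.Agent.Helper7.SC.DP

open Finset Pool.Agent.Helper7.SC

/-- block `B` of the digits of `n` -/
def blk (b q r B n : ℕ) : ℕ := n / b ^ (r + B * q) % b ^ q

/-- the shift by `τ` on the blocks in `β` -/
def zb (b q r : ℕ) {m : ℕ} (β : Finset (Fin m)) (τ : Fin m → Fin (b ^ q)) : ℕ :=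
  ∑ B ∈ β, (τ B : ℕ) * b ^ (r + B * q)

/-- the probability of the set `β` of active blocks -/
noncomputable def pb {m : ℕ} (p : ℝ) (β : Finset (Fin m)) : ℝ := p ^ #β * (1 - p) ^ (m - #β)

/-- the cell `k + zb β τ` has no carries out of the active blocks and the next ones -/
def Good (b q r : ℕ) {m : ℕ} (β : Finset (Fin m)) (k : ℕ) : Prop :=
  ∀ B ∈ β, (B : ℕ) + 1 < m ∧
    ((∃ B' ∈ β, (B' : ℕ) = B + 1) ∨ blk b q r (B + 1) k ≠ b ^ q - 1)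

/-- (M1) the law as a mixture of cells -/
def StM1 : Prop := ∀ (b q r m K : ℕ) (p : ℝ), 2 ≤ b → 0 ≤ p → p ≤ 1 →
  ∀ (D : Finset ℕ) (Φ : ℕ → ℕ → ℝ), (∀ n n', 0 ≤ Φ n n') →
  ∀ G : Finset (Fin m) → Finset ℕ,
  ∑ β : Finset (Fin m), pb p β / ((b : ℝ) ^ q) ^ (2 * m) * ∑ k ∈ G β,
    ∑ τ : Fin m → Fin (b ^ q), ∑ τ' : Fin m → Fin (b ^ q),
      (if k + zb b q r β τ ∈ D ∧ k + zb b q r β τ' ∈ D then
        Φ (k + zb b q r β τ) (k + zb b q r β τ') else 0) ≤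
  ∑ n ∈ D, ∑ n' ∈ D, law b q r m K p ((n' : ZMod (b ^ K)) - n) * Φ n n'

/-- (M2) restriction of `X` to the choice -/
def StM2 : Prop := ∀ (b q r m K H : ℕ) (p Δ : ℝ), 2 ≤ b → 1 ≤ H → 0 < Δ → Δ ≤ 1 / 2 →
  0 ≤ p → p ≤ 1 → ∀ (S D : Finset ℕ) (f : ℕ → ℕ),
  (∀ n ∈ D, f n ≤ n ∧ f n ∈ S ∧ n - f n ∈ S) →
  ∑ n ∈ D, ∑ n' ∈ D, law b q r m K p ((n' : ZMod (b ^ K)) - n) *
    R b q r m H Δ ((f n : ℤ) - f n') ≤ X b q r m K H p Δ S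

/-- (M3) one cell: many values `a t`, the digits of all guessed by the same `g` -/
def StM3 : Prop := ∀ (b : ℕ) (ε : ℝ), 2 ≤ b → 0 < ε →
  ∃ (H : ℕ) (κ : ℝ), 1 ≤ H ∧ 0 < κ ∧ κ ≤ 1 ∧
  ∀ (q r m : ℕ) (Δ : ℝ), 1 ≤ q → 0 < Δ → Δ ≤ 1 / 2 →
  ∀ {ι : Type} (T : Finset ι) (a : ι → ℕ) (g : ℕ → ℕ),
  (∀ t ∈ T, (1 / b + ε) * m ≤
    (#{B ∈ range m | a t / b ^ (r + (B + 1) * q - 1) % b = g B} : ℝ)) →
  (#T : ℝ) ^ 2 * Real.exp ((Δ * κ - Δ ^ 2) * m) ≤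
    ∑ t ∈ T, ∑ t' ∈ T, R b q r m H Δ ((a t : ℤ) - a t')

/-- (NC) no carries in a good cell -/
def StNC : Prop := ∀ (b q r m : ℕ), 2 ≤ b → 1 ≤ q → ∀ (β : Finset (Fin m)) (k : ℕ),
  Good b q r β k → ∀ (τ : Fin m → Fin (b ^ q)) (j : ℕ),
  (∀ B ∈ β, j < r + B * q ∨ r + (B + 2) * q ≤ j) →
  (k + zb b q r β τ) / b ^ j % b = k / b ^ j % b

/-- (GC) clean numbers lie in good cells -/
def StGC : Prop := ∀ (b q r m : ℕ), 2 ≤ b → 1 ≤ q → ∀ (β : Finset (Fin m)) (n : ℕ),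
  (∀ B ∈ β, (B : ℕ) + 1 < m ∧ blk b q r (B + 1) n ≠ 0 ∧ blk b q r (B + 1) n ≠ b ^ q - 1) →
  ∀ τ : Fin m → Fin (b ^ q), zb b q r β τ ≤ n ∧ Good b q r β (n - zb b q r β τ)

/-- (UN) few numbers have many unclean blocks -/
def StUn : Prop := ∀ (b q r m K s : ℕ), 2 ≤ b → 1 ≤ q → r + m * q ≤ K →
  (#{n ∈ range (b ^ K) | s ≤ #{B ∈ range m | blk b q r B n = 0 ∨
      blk b q r B n = b ^ q - 1}} : ℝ) ≤
    2 ^ m * (2 / (b : ℝ) ^ q) ^ s * (b : ℝ) ^ K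

/-- (HV) few blocks are read by many outputs -/
def StHv : Prop := ∀ (q r m v L : ℕ), 1 ≤ q → 1 ≤ L → 1 ≤ v → ∀ T : ℕ → Finset ℕ,
  (∀ B < m, #(T B) ≤ v) → ∃ W : Finset (Fin m), L * #W ≤ 2 * m ∧
    ∀ β : Finset (Fin m), Disjoint β W →
      #{B' ∈ range m | ∃ B ∈ β, ∃ j ∈ T B', r + (B : ℕ) * q ≤ j ∧ j < r + (B + 2) * q} ≤
        L * v * #β

/-- (PR) the probability to avoid a set with not too many active blocks -/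
def StPr : Prop := ∀ (m : ℕ) (p : ℝ), 0 < p → p ≤ 1 / 2 → 1 ≤ p * m →
  ∀ U : Finset (Fin m), 1 / 2 * (1 - p) ^ #U ≤
    ∑ β ∈ (univ : Finset (Finset (Fin m))).filter
      (fun β => Disjoint β U ∧ (#β : ℝ) ≤ 4 * p * m), pb p β

/-- (RES) one residue class of positions and a part of `D` on which every number is guessed -/
def StRes : Prop := ∀ (b q K : ℕ) (ε : ℝ), 2 ≤ b → 1 ≤ q → 0 < ε → 4 * q ≤ ε * K →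
  ∀ (D : Finset ℕ) (h : ℕ → ℕ → Prop) [∀ n i, Decidable (h n i)],
  (1 / b + ε) * K * #D ≤ ∑ n ∈ D, (#{i ∈ range K | h n i} : ℝ) →
  ∃ r < q, ∃ D' ⊆ D, ε / (2 * q) * #D ≤ (#D' : ℝ) ∧ ∀ n ∈ D',
    (1 / b + ε / 4) * (((K - r) / q : ℕ) : ℝ) ≤
      (#{B ∈ range ((K - r) / q) | h n (r + (B + 1) * q - 1)} : ℝ)

/-- (DP) the theorem, finite form -/
def StDP : Prop := ∀ (b : ℕ) (ε : ℝ), 2 ≤ b → 0 < ε → ∃ c : ℝ, 0 < c ∧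
  ∀ (K v : ℕ), 1 ≤ v → ∀ (S D : Finset ℕ) (f : ℕ → ℕ) (J : ℕ → ℕ → ℕ) (T : ℕ → Finset ℕ),
  S ⊆ range (b ^ K) → D ⊆ range (b ^ K) →
  (∀ n ∈ D, f n ≤ n ∧ f n ∈ S ∧ n - f n ∈ S) →
  (∀ i < K, #(T i) ≤ v ∧
    ∀ n n', (∀ j ∈ T i, n / b ^ j % b = n' / b ^ j % b) → J i n = J i n') →
  (1 / b + ε) * K * #D ≤ ∑ n ∈ D, (#{i ∈ range K | f n / b ^ i % b = J i n} : ℝ) →
  c * (#D : ℝ) ^ 2 / (b : ℝ) ^ K * Real.exp (c * K / v) ≤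
    ∑ n ∈ range (2 * b ^ K), (#{a ∈ S ×ˢ S | a.1 + a.2 = n} : ℝ) ^ 2

end Pool.Agent.Helper7.SC.DP
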