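import Pool.Agent.Helper7.SC.DP.Frames

set_option autoImplicit false

/-!
Sparse few digits theorem: the cells.
-/

namespace Pool.Agent.Helper7.SC.DP

open Finset Pool.Agent.Helper7.SC

/-- the members of `D` in the cell -/
def mem (b q r : ℕ) {m : ℕ} (D : Finset ℕ) (β : Finset (Fin m)) (k : ℕ) :
    Finset (Fin m → Fin (b ^ q)) :=
  univ.filter fun τ => k + zb b q r β τ ∈ D

/-- the position tested in block `B` -/
def pos (q r B : ℕ) : ℕ := r + (B + 1) * q - 1

lemma cell_lower (hNC : StNC) {b q r m H : ℕ} {κ ε Δ : ℝ} (hb : 2 ≤ b) (hq : 1 ≤ q)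
    (h3 : ∀ (T : Finset (Fin m → Fin (b ^ q))) (a : (Fin m → Fin (b ^ q)) → ℕ) (g : ℕ → ℕ),
      (∀ t ∈ T, (1 / b + ε / 8) * m ≤
        (#{B ∈ range m | a t / b ^ (r + (B + 1) * q - 1) % b = g B} : ℝ)) →
      (#T : ℝ) ^ 2 * Real.exp ((Δ * κ - Δ ^ 2) * m) ≤
        ∑ t ∈ T, ∑ t' ∈ T, R b q r m H Δ ((a t : ℤ) - a t'))
    (D : Finset ℕ) (f : ℕ → ℕ) (J : ℕ → ℕ → ℕ) (T : ℕ → Finset ℕ)
    (hJ : ∀ B < m, ∀ n n', (∀ j ∈ T (pos q r B), n / b ^ j % b = n' / b ^ j % b) →
      J (pos q r B) n = J (pos q r B) n')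
    (hag : ∀ n ∈ D, (1 / b + ε / 4) * m ≤
      (#{B ∈ range m | f n / b ^ pos q r B % b = J (pos q r B) n} : ℝ))
    (β : Finset (Fin m))
    (haff : (#{B' ∈ range m | ∃ B ∈ β, ∃ j ∈ T (pos q r B'),
      r + (B : ℕ) * q ≤ j ∧ j < r + (B + 2) * q} : ℝ) ≤ ε / 8 * m)
    (k : ℕ) (hk : Good b q r β k) :
    (#(mem b q r D β k) : ℝ) ^ 2 * Real.exp ((Δ * κ - Δ ^ 2) * m) ≤
      ∑ τ : Fin m → Fin (b ^ q), ∑ τ' : Fin m → Fin (b ^ q),
        (if k + zb b q r β τ ∈ D ∧ k + zb b q r β τ' ∈ D then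
          R b q r m H Δ ((f (k + zb b q r β τ) : ℤ) - f (k + zb b q r β τ')) else 0) := by
  have h := h3 (mem b q r D β k) (fun τ => f (k + zb b q r β τ)) (fun B => J (pos q r B) k) ?_
  · refine h.trans (le_of_eq ?_)
    unfold mem
    rw [sum_filter]
    refine sum_congr rfl fun τ _ => ?_
    by_cases h1 : k + zb b q r β τ ∈ D
    · rw [if_pos h1, sum_filter]
      refine sum_congr rfl fun τ' _ => ?_
      by_cases h2 : k + zb b q r β τ' ∈ D
      · rw [if_pos h2, if_pos ⟨h1, h2⟩]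
      · rw [if_neg h2, if_neg (fun h => h2 h.2)]
    · rw [if_neg h1]
      exact (sum_eq_zero fun τ' _ => if_neg fun h => h1 h.1).symm
  · intro τ hτ
    have hτD : k + zb b q r β τ ∈ D := (mem_filter.1 hτ).2
    have h4 := hag _ hτD
    have hsub : ({B ∈ range m | f (k + zb b q r β τ) / b ^ pos q r B % b =
        J (pos q r B) (k + zb b q r β τ)} : Finset ℕ) ⊆
        {B ∈ range m | f (k + zb b q r β τ) / b ^ (r + (B + 1) * q - 1) % b = J (pos q r B) k} ∪
        {B' ∈ range m | ∃ B ∈ β, ∃ j ∈ T (pos q r B'),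
          r + (B : ℕ) * q ≤ j ∧ j < r + (B + 2) * q} := by
      intro B hB
      rw [mem_filter] at hB
      rw [mem_union, mem_filter, mem_filter]
      by_cases ha : ∃ B₁ ∈ β, ∃ j ∈ T (pos q r B), r + (B₁ : ℕ) * q ≤ j ∧ j < r + (B₁ + 2) * q
      · exact Or.inr ⟨hB.1, ha⟩
      · refine Or.inl ⟨hB.1, ?_⟩
        have h5 : J (pos q r B) (k + zb b q r β τ) = J (pos q r B) k := by
          refine hJ B (mem_range.1 hB.1) _ _ fun j hj => ?_
          refine hNC b q r m hb hq β k hk τ j fun B₁ hB₁ => ?_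
          by_contra hcon
          rw [not_or, not_lt, not_le] at hcon
          exact ha ⟨B₁, hB₁, j, hj, hcon.1, hcon.2⟩
        rw [← h5]
        exact hB.2
    have h6 := (card_le_card hsub).trans (card_union_le _ _)
    have h7 : (#{B ∈ range m | f (k + zb b q r β τ) / b ^ pos q r B % b =
        J (pos q r B) (k + zb b q r β τ)} : ℝ) ≤
        (#{B ∈ range m | f (k + zb b q r β τ) / b ^ (r + (B + 1) * q - 1) % b =
          J (pos q r B) k} : ℝ) +
        (#{B' ∈ range m | ∃ B ∈ β, ∃ j ∈ T (pos q r B'),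
          r + (B : ℕ) * q ≤ j ∧ j < r + (B + 2) * q} : ℝ) := by
      exact_mod_cast h6
    have h8 : (1 / (b : ℝ) + ε / 4) * m = (1 / b + ε / 8) * m + ε / 8 * m := by ring
    rw [h8] at h4
    linarith

/-- the bad blocks of `n`: the last one and those below an unclean block -/
def bad (b q r m n : ℕ) : Finset (Fin m) :=
  univ.filter fun B => ¬ ((B : ℕ) + 1 < m ∧ blk b q r (B + 1) n ≠ 0 ∧
    blk b q r (B + 1) n ≠ b ^ q - 1)

lemma card_bad (b q r m n : ℕ) :
    #(bad b q r m n) ≤ #{B ∈ range m | blk b q r B n = 0 ∨ blk b q r B n = b ^ q - 1} + 1 := by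
  have hsub : bad b q r m n ⊆
      (univ.filter fun B : Fin m => (B : ℕ) + 1 < m ∧
        (blk b q r (B + 1) n = 0 ∨ blk b q r (B + 1) n = b ^ q - 1)) ∪
      (univ.filter fun B : Fin m => (B : ℕ) + 1 = m) := by
    intro B hB
    have hB' := (mem_filter.1 hB).2
    rw [mem_union, mem_filter, mem_filter]
    have := B.2
    by_cases h1 : (B : ℕ) + 1 < m
    · refine Or.inl ⟨mem_univ _, h1, ?_⟩
      by_contra h2
      rw [not_or] at h2
      exact hB' ⟨h1, h2.1, h2.2⟩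
    · exact Or.inr ⟨mem_univ _, by omega⟩
  refine (card_le_card hsub).trans ((card_union_le _ _).trans (add_le_add ?_ ?_))
  · refine card_le_card_of_injOn (fun B : Fin m => (B : ℕ) + 1) ?_ ?_
    · intro B hB
      have hB' := (mem_filter.1 (mem_coe.1 hB)).2
      exact mem_coe.2 (mem_filter.2 ⟨mem_range.2 hB'.1, hB'.2⟩)
    · intro B _ B' _ h
      have h' : (B : ℕ) + 1 = (B' : ℕ) + 1 := h
      exact Fin.ext (by omega)
  · refine card_le_one.2 fun B hB B' hB' => ?_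
    have h1 := (mem_filter.1 hB).2
    have h2 := (mem_filter.1 hB').2
    exact Fin.ext (by omega)

open Classical in
/-- the active sets in use -/
noncomputable def act (m : ℕ) (p : ℝ) (W : Finset (Fin m)) : Finset (Finset (Fin m)) :=
  univ.filter fun β => Disjoint β W ∧ (#β : ℝ) ≤ 4 * p * m

open Classical in
/-- the good starting points -/
noncomputable def starts (b q r K : ℕ) {m : ℕ} (β : Finset (Fin m)) : Finset ℕ :=
  (range (b ^ K)).filter fun k => Good b q r β k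

lemma pb_nonneg {m : ℕ} {p : ℝ} (h0 : 0 ≤ p) (h1 : p ≤ 1) (β : Finset (Fin m)) : 0 ≤ pb p β :=
  mul_nonneg (pow_nonneg h0 _) (pow_nonneg (by linarith) _)

lemma sum_pb (m : ℕ) (p : ℝ) : ∑ β : Finset (Fin m), pb p β = 1 := by
  have h := Finset.sum_pow_mul_eq_add_pow p (1 - p) (univ : Finset (Fin m))
  rw [card_univ, Fintype.card_fin, Finset.powerset_univ] at h
  unfold pb
  rw [h]
  simp

/-- the mass of the good cells -/
lemma mass (hGC : StGC) (hPr : StPr) {b q r m K : ℕ} {p : ℝ} (hb : 2 ≤ b) (hq : 1 ≤ q)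
    (hp0 : 0 < p) (hp1 : p ≤ 1 / 2) (hpm : 1 ≤ p * m) (D : Finset ℕ) (hD : D ⊆ range (b ^ K))
    (W : Finset (Fin m)) (C : Finset ℕ) (hC : C ⊆ D) (s : ℕ)
    (hs : ∀ n ∈ C, #(bad b q r m n ∪ W) ≤ s) :
    #C * (1 / 2 * (1 - p) ^ s) ≤ ∑ β ∈ act m p W, ∑ k ∈ starts b q r K β,
      pb p β / ((b : ℝ) ^ q) ^ m * #(mem b q r D β k) := by
  classical
  have hQ : (0 : ℝ) < ((b : ℝ) ^ q) ^ m := by positivity
  have hp1' : p ≤ 1 := by linarith
  -- for each `β`
  have h1 : ∀ β ∈ act m p W, pb p β * #(C.filter fun n => Disjoint β (bad b q r m n)) ≤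
      ∑ k ∈ starts b q r K β, pb p β / ((b : ℝ) ^ q) ^ m * #(mem b q r D β k) := by
    intro β _
    rw [← mul_sum, div_mul_eq_mul_div, le_div_iff₀ hQ, mul_assoc]
    refine mul_le_mul_of_nonneg_left ?_ (pb_nonneg hp0.le hp1' β)
    have h2 : ∑ k ∈ starts b q r K β, (#(mem b q r D β k) : ℝ) =
        ∑ τ : Fin m → Fin (b ^ q),
          (#((starts b q r K β).filter fun k => k + zb b q r β τ ∈ D) : ℝ) := by
      have h3 : ∑ k ∈ starts b q r K β, #(mem b q r D β k) =
          ∑ τ : Fin m → Fin (b ^ q),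
            #((starts b q r K β).filter fun k => k + zb b q r β τ ∈ D) := by
        unfold mem
        simp only [card_filter]
        exact sum_comm
      exact_mod_cast h3
    rw [h2]
    have h4 : ∀ τ ∈ (univ : Finset (Fin m → Fin (b ^ q))),
        (#(C.filter fun n => Disjoint β (bad b q r m n)) : ℝ) ≤
        (#((starts b q r K β).filter fun k => k + zb b q r β τ ∈ D) : ℝ) := by
      intro τ _
      have h5 : #(C.filter fun n => Disjoint β (bad b q r m n)) ≤
          #((starts b q r K β).filter fun k => k + zb b q r β τ ∈ D) := by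
        have hclean : ∀ n ∈ C.filter fun n => Disjoint β (bad b q r m n),
            zb b q r β τ ≤ n ∧ Good b q r β (n - zb b q r β τ) := by
          intro n hn
          have hn2 := (mem_filter.1 hn).2
          refine hGC b q r m hb hq β n (fun B hB => ?_) τ
          by_contra hcon
          exact (Finset.disjoint_left.1 hn2 hB) (mem_filter.2 ⟨mem_univ _, hcon⟩)
        refine card_le_card_of_injOn (fun n => n - zb b q r β τ) ?_ ?_
        · intro n hn
          obtain ⟨h6, h7⟩ := hclean n (mem_coe.1 hn)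
          have hnC := (mem_filter.1 (mem_coe.1 hn)).1
          have hnx := mem_range.1 (hD (hC hnC))
          refine mem_coe.2 (mem_filter.2 ⟨mem_filter.2 ⟨mem_range.2 ?_, h7⟩, ?_⟩)
          · exact lt_of_le_of_lt (Nat.sub_le _ _) hnx
          · show n - zb b q r β τ + zb b q r β τ ∈ D
            rw [Nat.sub_add_cancel h6]
            exact hC hnC
        · intro n hn n' hn' h
          obtain ⟨h6, -⟩ := hclean n (mem_coe.1 hn)
          obtain ⟨h7, -⟩ := hclean n' (mem_coe.1 hn')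
          have h' : n - zb b q r β τ = n' - zb b q r β τ := h
          omega
      exact_mod_cast h5
    have h8 := sum_le_sum h4
    rw [sum_const, card_univ, Fintype.card_fun, Fintype.card_fin, Fintype.card_fin,
      nsmul_eq_mul] at h8
    push_cast at h8
    rw [mul_comm]
    exact h8
  refine le_trans ?_ (sum_le_sum h1)
  have h2 : ∑ β ∈ act m p W, pb p β * (#(C.filter fun n => Disjoint β (bad b q r m n)) : ℝ) =
      ∑ n ∈ C, ∑ β ∈ act m p W, if Disjoint β (bad b q r m n) then pb p β else 0 := by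
    rw [sum_comm]
    refine sum_congr rfl fun β _ => ?_
    rw [← sum_filter, sum_const, nsmul_eq_mul, mul_comm]
  rw [h2]
  have h3 : ∀ n ∈ C, 1 / 2 * (1 - p) ^ s ≤
      ∑ β ∈ act m p W, if Disjoint β (bad b q r m n) then pb p β else 0 := by
    intro n hn
    have h4 := hPr m p hp0 hp1 hpm (bad b q r m n ∪ W)
    have h5 : (1 - p) ^ s ≤ (1 - p) ^ #(bad b q r m n ∪ W) :=
      pow_le_pow_of_le_one (by linarith) (by linarith) (hs n hn)
    refine le_trans (mul_le_mul_of_nonneg_left h5 (by norm_num)) (h4.trans (le_of_eq ?_))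
    rw [← sum_filter]
    unfold act
    refine sum_congr ?_ fun _ _ => rfl
    ext β
    simp only [mem_filter, mem_univ, true_and, disjoint_union_right]
    tauto
  have h4 := sum_le_sum h3
  rw [sum_const, nsmul_eq_mul] at h4
  exact h4

/-- the sum over the cells -/
lemma sum_cells (hM1 : StM1) (hGC : StGC) (hPr : StPr) {b q r m K : ℕ} {p E₁ : ℝ} (hb : 2 ≤ b)
    (hq : 1 ≤ q) (hp0 : 0 < p) (hp1 : p ≤ 1 / 2) (hpm : 1 ≤ p * m) (hE₁ : 0 ≤ E₁)
    (D : Finset ℕ) (hD : D ⊆ range (b ^ K)) (Φ : ℕ → ℕ → ℝ) (hΦ : ∀ n n', 0 ≤ Φ n n')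
    (W : Finset (Fin m)) (C : Finset ℕ) (hC : C ⊆ D) (s : ℕ)
    (hs : ∀ n ∈ C, #(bad b q r m n ∪ W) ≤ s)
    (hcell : ∀ β ∈ act m p W, ∀ k, Good b q r β k → (#(mem b q r D β k) : ℝ) ^ 2 * E₁ ≤
      ∑ τ : Fin m → Fin (b ^ q), ∑ τ' : Fin m → Fin (b ^ q),
        (if k + zb b q r β τ ∈ D ∧ k + zb b q r β τ' ∈ D then
          Φ (k + zb b q r β τ) (k + zb b q r β τ') else 0)) :
    (#C * (1 / 2 * (1 - p) ^ s)) ^ 2 * E₁ ≤ (b : ℝ) ^ K *
      ∑ n ∈ D, ∑ n' ∈ D, law b q r m K p ((n' : ZMod (b ^ K)) - n) * Φ n n' := by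
  classical
  have hp1' : p ≤ 1 := by linarith
  have hQ : (0 : ℝ) < ((b : ℝ) ^ q) ^ m := by positivity
  have hx : (0 : ℝ) < (b : ℝ) ^ K := by positivity
  have hm := mass hGC hPr hb hq hp0 hp1 hpm D hD W C hC s hs
  have h1 := hM1 b q r m K p hb hp0.le hp1' D Φ hΦ
    (fun β => if β ∈ act m p W then starts b q r K β else ∅)
  -- lower bound for the cells
  have h2 : ∑ β ∈ act m p W, ∑ k ∈ starts b q r K β,
      pb p β / ((b : ℝ) ^ q) ^ (2 * m) * ((#(mem b q r D β k) : ℝ) ^ 2 * E₁) ≤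
      ∑ n ∈ D, ∑ n' ∈ D, law b q r m K p ((n' : ZMod (b ^ K)) - n) * Φ n n' := by
    refine le_trans ?_ h1
    have h3 : ∀ β ∈ act m p W, ∑ k ∈ starts b q r K β,
        pb p β / ((b : ℝ) ^ q) ^ (2 * m) * ((#(mem b q r D β k) : ℝ) ^ 2 * E₁) ≤
        pb p β / ((b : ℝ) ^ q) ^ (2 * m) *
          ∑ k ∈ (if β ∈ act m p W then starts b q r K β else ∅),
          ∑ τ : Fin m → Fin (b ^ q), ∑ τ' : Fin m → Fin (b ^ q),
            (if k + zb b q r β τ ∈ D ∧ k + zb b q r β τ' ∈ D then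
              Φ (k + zb b q r β τ) (k + zb b q r β τ') else 0) := by
      intro β hβ
      rw [if_pos hβ, ← mul_sum]
      refine mul_le_mul_of_nonneg_left ?_ (div_nonneg (pb_nonneg hp0.le hp1' β) (by positivity))
      refine sum_le_sum fun k hk => hcell β hβ k ?_
      exact (mem_filter.1 hk).2
    refine (sum_le_sum h3).trans ?_
    refine sum_le_sum_of_subset_of_nonneg (subset_univ _) fun β _ hβ => ?_
    rw [if_neg hβ, sum_empty, mul_zero]
  -- Cauchy-Schwarz
  have hM0 : 0 ≤ ∑ β ∈ act m p W, ∑ k ∈ starts b q r K β,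
      pb p β / ((b : ℝ) ^ q) ^ m * (#(mem b q r D β k) : ℝ) := by
    refine sum_nonneg fun β _ => sum_nonneg fun k _ => ?_
    exact mul_nonneg (div_nonneg (pb_nonneg hp0.le hp1' β) hQ.le) (Nat.cast_nonneg _)
  have h4 : (∑ β ∈ act m p W, ∑ k ∈ starts b q r K β,
      pb p β / ((b : ℝ) ^ q) ^ m * (#(mem b q r D β k) : ℝ)) ^ 2 ≤ (b : ℝ) ^ K *
      ∑ β ∈ act m p W, ∑ k ∈ starts b q r K β,
        pb p β / ((b : ℝ) ^ q) ^ (2 * m) * (#(mem b q r D β k) : ℝ) ^ 2 := by
    have e1 : ∀ F : Finset (Fin m) → ℕ → ℝ, ∑ β ∈ act m p W, ∑ k ∈ starts b q r K β, F β k =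
        ∑ i ∈ (act m p W).sigma fun β => starts b q r K β, F i.1 i.2 := by
      intro F
      rw [sum_sigma]
    rw [e1, e1]
    have h5 := Finset.sum_mul_sq_le_sq_mul_sq ((act m p W).sigma fun β => starts b q r K β)
      (fun i => √(pb p i.1)) (fun i => √(pb p i.1) / ((b : ℝ) ^ q) ^ m *
        (#(mem b q r D i.1 i.2) : ℝ))
    have e2 : ∀ i : (_ : Finset (Fin m)) × ℕ, √(pb p i.1) * (√(pb p i.1) / ((b : ℝ) ^ q) ^ m *
        (#(mem b q r D i.1 i.2) : ℝ)) = pb p i.1 / ((b : ℝ) ^ q) ^ m *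
        (#(mem b q r D i.1 i.2) : ℝ) := by
      intro i
      have := Real.mul_self_sqrt (pb_nonneg hp0.le hp1' i.1)
      rw [← mul_assoc, ← mul_div_assoc, this]
    have e3 : ∀ i : (_ : Finset (Fin m)) × ℕ, (√(pb p i.1) / ((b : ℝ) ^ q) ^ m *
        (#(mem b q r D i.1 i.2) : ℝ)) ^ 2 = pb p i.1 / ((b : ℝ) ^ q) ^ (2 * m) *
        (#(mem b q r D i.1 i.2) : ℝ) ^ 2 := by
      intro i
      have := Real.sq_sqrt (pb_nonneg hp0.le hp1' i.1)
      rw [mul_pow, div_pow, this, ← pow_mul, mul_comm m 2]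
    have e4 : ∀ i : (_ : Finset (Fin m)) × ℕ, √(pb p i.1) ^ 2 = pb p i.1 := by
      intro i
      exact Real.sq_sqrt (pb_nonneg hp0.le hp1' i.1)
    simp only [e2, e3, e4] at h5
    refine h5.trans ?_
    refine mul_le_mul_of_nonneg_right ?_ ?_
    · rw [← e1 (fun β _ => pb p β)]
      calc ∑ β ∈ act m p W, ∑ k ∈ starts b q r K β, pb p β
          ≤ ∑ β ∈ act m p W, (b : ℝ) ^ K * pb p β := by
            refine sum_le_sum fun β _ => ?_
            rw [sum_const, nsmul_eq_mul]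
            refine mul_le_mul_of_nonneg_right ?_ (pb_nonneg hp0.le hp1' β)
            have h6 : #(starts b q r K β) ≤ b ^ K := by
              unfold starts
              exact (card_filter_le _ _).trans (le_of_eq (card_range _))
            exact_mod_cast h6
        _ ≤ ∑ β : Finset (Fin m), (b : ℝ) ^ K * pb p β :=
            sum_le_sum_of_subset_of_nonneg (subset_univ _) fun β _ _ =>
              mul_nonneg hx.le (pb_nonneg hp0.le hp1' β)
        _ = (b : ℝ) ^ K := by rw [← mul_sum, sum_pb, mul_one]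
    · refine sum_nonneg fun i _ => ?_
      exact mul_nonneg (div_nonneg (pb_nonneg hp0.le hp1' _) (by positivity)) (sq_nonneg _)
  have h5 : (#C * (1 / 2 * (1 - p) ^ s)) ^ 2 ≤ (∑ β ∈ act m p W, ∑ k ∈ starts b q r K β,
      pb p β / ((b : ℝ) ^ q) ^ m * (#(mem b q r D β k) : ℝ)) ^ 2 := by
    refine pow_le_pow_left₀ ?_ hm 2
    have : 0 ≤ (1 - p) ^ s := pow_nonneg (by linarith) _
    positivity
  have h6 := mul_le_mul_of_nonneg_right (h5.trans h4) hE₁
  refine h6.trans ?_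
  rw [mul_assoc]
  refine mul_le_mul_of_nonneg_left ?_ hx.le
  refine le_trans (le_of_eq ?_) h2
  rw [sum_mul]
  refine sum_congr rfl fun β _ => ?_
  rw [sum_mul]
  refine sum_congr rfl fun k _ => ?_
  ring

end Pool.Agent.Helper7.SC.DP
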