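import Pool.Agent.Helper7.SC.DP.Final
import Pool.Agent.Helper99.SC.DP.M1
import Pool.Agent.Helper18.SC.DP.M2Un
import Pool.Agent.Helper43.SC.DP.M3
import Pool.Agent.Helper81.SC.DP.Carry
import Pool.Agent.Helper37.SC.DP.Hv
import Pool.Agent.Helper72.SC.DP.Pr
import Pool.Agent.Helper57.U2.Main

set_option autoImplicit false

/-!
The few digits clause without a density hypothesis.
-/

namespace Pool.Agent.Helper7.SC.DP

open Finset Pool.Agent.Helper57.U2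
open Pool.Agent.Helper25.RC (below below_subset_range)

theorem stDP : StDP :=
  stDP_of Pool.Agent.Helper7.SC.stA1 Pool.Agent.Helper99.SC.stA2 Pool.Agent.Helper99.SC.stA3
    Pool.Agent.Helper7.SC.stA4 Pool.Agent.Helper99.SC.DP.stM1 Pool.Agent.Helper18.SC.DP.stM2
    Pool.Agent.Helper43.SC.DP.stM3 Pool.Agent.Helper81.SC.DP.stNC Pool.Agent.Helper81.SC.DP.stGC
    Pool.Agent.Helper18.SC.DP.stUn Pool.Agent.Helper37.SC.DP.stHv Pool.Agent.Helper72.SC.DP.stPr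
    Pool.Agent.Helper37.SC.DP.stRes

theorem sparse_clause (b : ℕ) (hb : 2 ≤ b) (ε : ℝ) (hε : 0 < ε) :
    ∃ c : ℝ, 0 < c ∧ ∀ (A D : Set ℕ) (f : ℕ → ℕ), IsChoice A D f → ∀ (K : ℕ) (J : ℕ → ℕ → ℕ),
      Guesses b K ε D f J → ∀ v : ℕ, 1 ≤ v → (∀ i < K, FewDigits b v (J i)) →
        c * (#(upTo D (b ^ K)) : ℝ) ^ 2 / (b : ℝ) ^ K * Real.exp (c * K / v) ≤
          ∑ n ∈ range (2 * b ^ K), (rep A n : ℝ) ^ 2 := by
  classical
  obtain ⟨c, hc, h⟩ := stDP b ε hb hε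
  refine ⟨c, hc, fun A D f hf K J hg v hv hJ => ?_⟩
  have hQ : ∀ i, ∃ Q : Finset ℕ, i < K → #Q ≤ v ∧
      ∀ n n', (∀ j ∈ Q, n / b ^ j % b = n' / b ^ j % b) → J i n = J i n' := by
    intro i
    by_cases hi : i < K
    · obtain ⟨Q, hQ⟩ := hJ i hi
      exact ⟨Q, fun _ => hQ⟩
    · exact ⟨∅, fun h' => absurd h' hi⟩
  choose Q hQ using hQ
  exact le_trans (h K v hv (below A (b ^ K)) (upTo D (b ^ K)) f J Q (below_subset_range _ _)
    (below_subset_range _ _) (choice_below hf _) hQ (guesses_iff hg)) (sum_repF_le A (b ^ K))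

end Pool.Agent.Helper7.SC.DP
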