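import Pool.Agent.Helper7.SC.DP.Main

set_option autoImplicit false

/-!
Sparse few digits theorem: the constants.
-/

namespace Pool.Agent.Helper7.SC.DP

open Finset Pool.Agent.Helper7.SC

theorem stDP_of (hA1 : StA1) (hA2 : StA2) (hA3 : StA3) (hA4 : StA4) (hM1 : StM1) (hM2 : StM2)
    (hM3 : StM3) (hNC : StNC) (hGC : StGC) (hUn : StUn) (hHv : StHv) (hPr : StPr)
    (hRes : StRes) : StDP := by
  intro b ε hb hε
  obtain ⟨H, κ, hH, hκ0, hκ1, h3⟩ := hM3 b (ε / 8) hb (by positivity)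
  obtain ⟨th, hth⟩ : ∃ th : ℝ, th = κ ^ 2 / 4096 := ⟨_, rfl⟩
  have hth0 : 0 < th := by rw [hth]; positivity
  obtain ⟨n₁, hn₁⟩ := exists_nat_ge (4 / th)
  obtain ⟨L, hL⟩ : ∃ L : ℕ, L = n₁ + 1 := ⟨_, rfl⟩
  have hL1 : 1 ≤ L := by omega
  have hL4 : 4 ≤ th * L := by
    rw [div_le_iff₀ hth0] at hn₁
    rw [hL]
    push_cast
    nlinarith
  obtain ⟨η, hη⟩ : ∃ η : ℝ, η = κ / 16 := ⟨_, rfl⟩
  have hη0 : 0 < η := by rw [hη]; positivity
  obtain ⟨q, hq1, hqn, hHq, hexp⟩ := exists_q b hb H (n₁ + 1) η hη0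
  have hqR : (1 : ℝ) ≤ q := by exact_mod_cast hq1
  have hLR : (1 : ℝ) ≤ L := by exact_mod_cast hL1
  obtain ⟨c₁, hc₁⟩ : ∃ c₁ : ℝ, c₁ = min (1 / 2) (ε / (32 * L)) := ⟨_, rfl⟩
  have hc₁0 : 0 < c₁ := by rw [hc₁]; exact lt_min (by norm_num) (by positivity)
  have hc₁1 : c₁ ≤ 1 / 2 := by rw [hc₁]; exact min_le_left _ _
  have hc₁2 : 4 * L * c₁ ≤ ε / 8 := by
    have h1 : c₁ ≤ ε / (32 * L) := by rw [hc₁]; exact min_le_right _ _
    have h2 := mul_le_mul_of_nonneg_left h1 (show (0 : ℝ) ≤ 4 * L by positivity)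
    refine h2.trans (le_of_eq ?_)
    field_simp
    ring
  obtain ⟨K₀, hK₀⟩ := exists_nat_ge (32 * q ^ 2 / ε + 4 * q / ε + 4 * q + 2 * q / c₁)
  have hK₀0 : (0 : ℝ) ≤ K₀ := Nat.cast_nonneg _
  -- the constant
  obtain ⟨a, ha⟩ : ∃ a : ℝ, a = ε ^ 2 / (128 * q ^ 2) * Real.exp (-2) := ⟨_, rfl⟩
  have ha0 : 0 < a := by rw [ha]; positivity
  obtain ⟨c₂, hc₂⟩ : ∃ c₂ : ℝ, c₂ = κ ^ 2 * c₁ / (1024 * q) := ⟨_, rfl⟩
  have hc₂0 : 0 < c₂ := by rw [hc₂]; positivity
  obtain ⟨c, hc⟩ : ∃ c : ℝ, c = min (min (a) c₂) (min (1 / (8 * q)) (1 / (3 * (K₀ + 1)))) :=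
    ⟨_, rfl⟩
  have hc0 : 0 < c := by
    rw [hc]
    exact lt_min (lt_min ha0 hc₂0) (lt_min (by positivity) (by positivity))
  have hca : c ≤ a := by rw [hc]; exact (min_le_left _ _).trans (min_le_left _ _)
  have hcc₂ : c ≤ c₂ := by rw [hc]; exact (min_le_left _ _).trans (min_le_right _ _)
  have hcq : c ≤ 1 / (8 * q) := by rw [hc]; exact (min_le_right _ _).trans (min_le_left _ _)
  have hcK : c ≤ 1 / (3 * (K₀ + 1)) := by
    rw [hc]; exact (min_le_right _ _).trans (min_le_right _ _)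
  have hc3 : c * (3 * (K₀ + 1)) ≤ 1 := by
    have h1 := mul_le_mul_of_nonneg_right hcK (show (0 : ℝ) ≤ 3 * (K₀ + 1) by positivity)
    rwa [one_div_mul_cancel (by positivity)] at h1
  refine ⟨c, hc0, fun K v hv S D f J T hS hD hf hJ hhit => ?_⟩
  have hv1 : (1 : ℝ) ≤ v := by exact_mod_cast hv
  have hv0 : (0 : ℝ) < v := by linarith
  have hx : (0 : ℝ) < (b : ℝ) ^ K := by
    have : (0 : ℝ) < b := by
      have : 0 < b := by omega
      exact_mod_cast this
    positivity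
  have hED := card_le_energy (b ^ K) S D f hD hf
  obtain ⟨E, hE⟩ : ∃ E : ℝ, E = ∑ n ∈ range (2 * b ^ K),
    (#{a ∈ S ×ˢ S | a.1 + a.2 = n} : ℝ) ^ 2 := ⟨_, rfl⟩
  rw [← hE] at hED ⊢
  have hDx : (#D : ℝ) ≤ (b : ℝ) ^ K := by
    have h1 := card_le_card hD
    rw [card_range] at h1
    exact_mod_cast h1
  obtain ⟨d, hd⟩ : ∃ d : ℝ, d = (#D : ℝ) := ⟨_, rfl⟩
  rw [← hd] at hED hDx ⊢
  have hd0 : 0 ≤ d := by rw [hd]; exact Nat.cast_nonneg _
  have hcKv : 0 ≤ c * K / v := by positivity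
  -- the trivial case
  rcases lt_or_ge (K : ℝ) (K₀ * v) with hlt | hge
  · have h1 : c * K / v ≤ 1 := by
      rw [div_le_one hv0]
      have h2 : c * K ≤ c * (K₀ * v) := mul_le_mul_of_nonneg_left hlt.le hc0.le
      have h3 : c * K₀ ≤ 1 := by nlinarith
      have h4 : c * K₀ * v ≤ 1 * v := mul_le_mul_of_nonneg_right h3 hv0.le
      linarith
    have h2 : Real.exp (c * K / v) ≤ 3 := by
      refine (Real.exp_le_exp.2 h1).trans ?_
      have := Real.exp_one_lt_d9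
      linarith
    have h3 : c * 3 ≤ 1 := by nlinarith
    have h4 : c * d ^ 2 / (b : ℝ) ^ K ≤ c * d := by
      rw [div_le_iff₀ hx]
      have : c * d * d ≤ c * d * (b : ℝ) ^ K :=
        mul_le_mul_of_nonneg_left hDx (by positivity)
      linarith
    calc c * d ^ 2 / (b : ℝ) ^ K * Real.exp (c * K / v) ≤ c * d * 3 :=
          mul_le_mul h4 h2 (Real.exp_pos _).le (by positivity)
      _ = c * 3 * d := by ring
      _ ≤ 1 * d := mul_le_mul_of_nonneg_right h3 hd0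
      _ ≤ E := by linarith
  rcases le_or_gt (d * Real.exp (c * K / v)) ((b : ℝ) ^ K) with hsm | hbig
  · have h1 : c ≤ 1 := by nlinarith
    have h2 : c * d ^ 2 / (b : ℝ) ^ K * Real.exp (c * K / v) =
        c * d * (d * Real.exp (c * K / v)) / (b : ℝ) ^ K := by ring
    rw [h2, div_le_iff₀ hx]
    have h3 : c * d * (d * Real.exp (c * K / v)) ≤ c * d * (b : ℝ) ^ K :=
      mul_le_mul_of_nonneg_left hsm (by positivity)
    refine h3.trans (mul_le_mul_of_nonneg_right ?_ hx.le)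
    have h4 : c * d ≤ 1 * d := mul_le_mul_of_nonneg_right h1 hd0
    linarith
  -- the main case
  have hKv : (K₀ : ℝ) ≤ K := by
    have h1 : (K₀ : ℝ) * 1 ≤ K₀ * v := mul_le_mul_of_nonneg_left hv1 hK₀0
    linarith
  have hp1 : 0 ≤ 32 * (q : ℝ) ^ 2 / ε := by positivity
  have hp2 : 0 ≤ 4 * (q : ℝ) / ε := by positivity
  have hp3 : 0 ≤ 2 * (q : ℝ) / c₁ := by positivity
  have hK4 : 4 * (q : ℝ) ≤ ε * K := by
    have h1 : 4 * (q : ℝ) / ε ≤ K := by linarith
    rw [div_le_iff₀ hε] at h1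
    linarith
  have hKq : 4 * q ≤ K := by
    have : 4 * (q : ℝ) ≤ K := by linarith
    exact_mod_cast this
  obtain ⟨r, hr, D', hD', hD'c, hag⟩ := hRes b q K ε hb hq1 hε hK4 D
    (fun n i => f n / b ^ i % b = J i n) hhit
  obtain ⟨m, hm⟩ : ∃ m : ℕ, m = (K - r) / q := ⟨_, rfl⟩
  rw [← hm] at hag
  have hmq : m * q ≤ K - r := by rw [hm]; exact Nat.div_mul_le_self _ _
  have hrm : r + m * q ≤ K := by omega
  have hmq2 : K ≤ 2 * (m * q) := by
    have h1 : K - r < (m + 1) * q := by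
      rw [hm]
      have := Nat.lt_mul_div_succ (K - r) (show 0 < q by omega)
      rw [mul_comm]
      exact this
    have h2 : (m + 1) * q = m * q + q := by ring
    omega
  have hmqR : (K : ℝ) ≤ 2 * (m * q) := by exact_mod_cast hmq2
  have hm0 : (0 : ℝ) ≤ m := Nat.cast_nonneg _
  obtain ⟨p, hp⟩ : ∃ p : ℝ, p = c₁ / v := ⟨_, rfl⟩
  have hp0 : 0 < p := by rw [hp]; positivity
  have hvp : v * p = c₁ := by rw [hp]; field_simp
  have hp12 : p ≤ 1 / 2 := by
    have h1 : 1 * p ≤ v * p := mul_le_mul_of_nonneg_right hv1 hp0.le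
    linarith
  have hpm : 1 ≤ p * m := by
    have h1 : 2 * (q : ℝ) / c₁ * v ≤ K := by
      refine le_trans (mul_le_mul_of_nonneg_right ?_ hv0.le) hge
      linarith
    have h2 : 2 * (q : ℝ) / c₁ * v * p ≤ 2 * (m * q) * p :=
      mul_le_mul_of_nonneg_right (h1.trans hmqR) hp0.le
    have h3 : 2 * (q : ℝ) / c₁ * v * p = 2 * q * 1 := by
      rw [mul_assoc, hvp]
      field_simp
    rw [h3] at h2
    have h4 : 2 * (m * q) * p = 2 * q * (p * m) := by ring
    rw [h4] at h2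
    exact le_of_mul_le_mul_left h2 (by positivity)
  -- clean numbers
  obtain ⟨s, hs⟩ : ∃ s : ℕ, s = ⌈th * m / 2⌉₊ := ⟨_, rfl⟩
  have hs1 : th * m / 2 ≤ s := by rw [hs]; exact Nat.le_ceil _
  have hs2 : (s : ℝ) ≤ th * m / 2 + 1 := by
    rw [hs]; exact (Nat.ceil_lt_add_one (by positivity)).le
  have hns : 2 * m ≤ n₁ * s := by
    have h1 : 2 * (m : ℝ) ≤ n₁ * s := by
      have h2 : 4 / th * (th * m / 2) ≤ n₁ * s :=
        mul_le_mul hn₁ hs1 (by positivity) (Nat.cast_nonneg _)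
      have h3 : 4 / th * (th * m / 2) = 2 * m := by field_simp; ring
      rw [h3] at h2
      exact h2
    exact_mod_cast h1
  have hun := un_le hUn (s := s) hb hq1 hrm hqn hns
  have hm16 : 16 * (q : ℝ) / ε ≤ m := by
    have h1 : 32 * (q : ℝ) ^ 2 / ε ≤ 2 * (m * q) := by linarith
    have h2 : 32 * (q : ℝ) ^ 2 / ε = 2 * q * (16 * q / ε) := by ring
    have h3 : 2 * ((m : ℝ) * q) = 2 * q * m := by ring
    rw [h2, h3] at h1
    exact le_of_mul_le_mul_left h1 (by positivity)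
  have hsmall : 2 * Real.exp (-((m : ℝ) / 2)) * (b : ℝ) ^ K ≤ (#D' : ℝ) := by
    refine le_trans ?_ hD'c
    rw [← hd]
    have h1 : (b : ℝ) ^ K * Real.exp (-((m : ℝ) / 4)) ≤ d := by
      have h2 : c * K / v ≤ m / 4 := by
        have h3 : c * K / v ≤ c * K := div_le_self (by positivity) hv1
        have h4 : c * K ≤ 1 / (8 * q) * (2 * (m * q)) :=
          mul_le_mul hcq hmqR (Nat.cast_nonneg _) (by positivity)
        have h5 : 1 / (8 * (q : ℝ)) * (2 * (m * q)) = m / 4 := by field_simp; ring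
        linarith
      have h6 : (b : ℝ) ^ K ≤ d * Real.exp (m / 4) :=
        hbig.le.trans (mul_le_mul_of_nonneg_left (Real.exp_le_exp.2 h2) hd0)
      rw [Real.exp_neg, ← div_eq_mul_inv, div_le_iff₀ (Real.exp_pos _)]
      exact h6
    have h2 : 2 * Real.exp (-((m : ℝ) / 2)) ≤ ε / (2 * q) * Real.exp (-((m : ℝ) / 4)) := by
      have h3 : Real.exp (-((m : ℝ) / 2)) =
          Real.exp (-((m : ℝ) / 4)) * Real.exp (-((m : ℝ) / 4)) := by
        rw [← Real.exp_add]; congr 1; ring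
      have h4 : 2 * Real.exp (-((m : ℝ) / 4)) ≤ ε / (2 * q) := by
        rw [Real.exp_neg, ← div_eq_mul_inv, div_le_iff₀ (Real.exp_pos _)]
        have h5 := Real.add_one_le_exp ((m : ℝ) / 4)
        have h6 : 4 * (q : ℝ) / ε ≤ Real.exp (m / 4) := by
          have : 4 * (q : ℝ) / ε = 16 * q / ε / 4 := by ring
          linarith
        have h7 := mul_le_mul_of_nonneg_left h6 (show 0 ≤ ε / (2 * q) by positivity)
        have h8 : ε / (2 * q) * (4 * (q : ℝ) / ε) = 2 := by field_simp; ring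
        linarith
      rw [h3, ← mul_assoc]
      exact mul_le_mul_of_nonneg_right h4 (Real.exp_pos _).le
    calc 2 * Real.exp (-((m : ℝ) / 2)) * (b : ℝ) ^ K
        ≤ ε / (2 * q) * Real.exp (-((m : ℝ) / 4)) * (b : ℝ) ^ K :=
          mul_le_mul_of_nonneg_right h2 hx.le
      _ = ε / (2 * q) * ((b : ℝ) ^ K * Real.exp (-((m : ℝ) / 4))) := by ring
      _ ≤ ε / (2 * q) * d := mul_le_mul_of_nonneg_left h1 (by positivity)
  obtain ⟨C, hC⟩ : ∃ C : Finset ℕ, C = D'.filter fun n => ¬ s ≤ #{B ∈ range m |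
    blk b q r B n = 0 ∨ blk b q r B n = b ^ q - 1} := ⟨_, rfl⟩
  have hCD : C ⊆ D' := by rw [hC]; exact filter_subset _ _
  have hCc : (#D' : ℝ) / 2 ≤ #C := by
    have h1 : #D' ≤ #C + #{n ∈ range (b ^ K) | s ≤ #{B ∈ range m | blk b q r B n = 0 ∨
        blk b q r B n = b ^ q - 1}} := by
      rw [hC, ← card_filter_add_card_filter_not (s := D') (fun n => s ≤ #{B ∈ range m |
        blk b q r B n = 0 ∨ blk b q r B n = b ^ q - 1}), add_comm]
      refine Nat.add_le_add_left (card_le_card ?_) _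
      exact filter_subset_filter _ (hD'.trans hD)
    have h2 : (#D' : ℝ) ≤ #C + (#{n ∈ range (b ^ K) | s ≤ #{B ∈ range m | blk b q r B n = 0 ∨
        blk b q r B n = b ^ q - 1}} : ℝ) := by exact_mod_cast h1
    linarith
  have hcore := core hA1 hA2 hA3 hA4 hM1 hM2 hNC hGC hPr hHv (b := b) (q := q) (r := r) (m := m)
    (K := K) (H := H) (L := L) (v := v) (s := s) (κ := κ) (ε := ε) (p := p) (Δ := η * p / 8)
    (η := η) (th := th) hb hq1 hrm hH hHq hκ0 hκ1
    (fun T₁ a₁ g₁ hh => h3 q r m (η * p / 8) hq1 (by positivity) (by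
      rw [hη]
      nlinarith) T₁ a₁ g₁ hh)
    hp0 hp12 hpm hη rfl hexp hth hL1 hL4 hv (by rw [hvp]; exact hc₁2) hs2 S D' C f J T hS
    (hD'.trans hD) (fun n hn => hf n (hD' hn))
    (fun B hB => by
      have h1 : (B + 1) * q ≤ m * q := Nat.mul_le_mul_right q hB
      have h2 : 1 * q ≤ (B + 1) * q := Nat.mul_le_mul_right q (by omega)
      exact hJ (pos q r B) (by unfold pos; omega))
    hag hCD (fun n hn => by
      rw [hC] at hn
      have := (mem_filter.1 hn).2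
      omega)
  rw [← hE] at hcore
  -- conclusion
  have h1 : ε / (4 * q) * d ≤ #C := by
    refine le_trans ?_ hCc
    rw [hd]
    have h2 : ε / (4 * q) * (#D : ℝ) = ε / (2 * q) * #D / 2 := by ring
    rw [h2]
    linarith
  have h2 : (ε / (4 * q) * d) ^ 2 ≤ (#C : ℝ) ^ 2 := pow_le_pow_left₀ (by positivity) h1 2
  have h4 : c * K / v ≤ κ ^ 2 * p * m / 512 := by
    have h5 : c * K ≤ c₂ * (2 * (m * q)) :=
      mul_le_mul hcc₂ hmqR (Nat.cast_nonneg _) hc₂0.le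
    have h6 : c₂ * (2 * (m * q)) = κ ^ 2 * c₁ * m / 512 := by
      rw [hc₂]; field_simp; ring
    have h7 : κ ^ 2 * p * m / 512 = κ ^ 2 * c₁ * m / 512 / v := by
      rw [hp]; ring
    rw [h7]
    refine (div_le_div_iff_of_pos_right hv0).2 ?_
    linarith
  have h5 : Real.exp (c * K / v) * Real.exp (-2) ≤ Real.exp (κ ^ 2 * p * m / 512 - 2) := by
    rw [← Real.exp_add]
    refine Real.exp_le_exp.2 ?_
    linarith
  have h6 : (ε / (4 * q) * d) ^ 2 / (b : ℝ) ^ K * (Real.exp (c * K / v) * Real.exp (-2)) ≤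
      8 * E := by
    refine le_trans ?_ hcore
    refine mul_le_mul ?_ h5 (by positivity) (by positivity)
    exact div_le_div_of_nonneg_right h2 hx.le
  have h7 : (ε / (4 * q) * d) ^ 2 / (b : ℝ) ^ K * (Real.exp (c * K / v) * Real.exp (-2)) =
      8 * (a * d ^ 2 / (b : ℝ) ^ K * Real.exp (c * K / v)) := by
    rw [ha]
    field_simp
    ring
  rw [h7] at h6
  have h8 : a * d ^ 2 / (b : ℝ) ^ K * Real.exp (c * K / v) ≤ E := by linarith
  refine le_trans ?_ h8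
  refine mul_le_mul_of_nonneg_right ?_ (Real.exp_pos _).le
  refine div_le_div_of_nonneg_right ?_ hx.le
  exact mul_le_mul_of_nonneg_right hca (sq_nonneg _)

end Pool.Agent.Helper7.SC.DP
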