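import Pool.Agent.Helper7.SC.DP.Cells

set_option autoImplicit false

/-!
Sparse few digits theorem: the assembly.
-/

namespace Pool.Agent.Helper7.SC.DP

open Finset Pool.Agent.Helper7.SC

/-- choice of the block length -/
lemma exists_q (b : ℕ) (hb : 2 ≤ b) (H n₀ : ℕ) (η : ℝ) (hη : 0 < η) : ∃ q : ℕ, 1 ≤ q ∧ n₀ ≤ q ∧
    2 * H < b ^ q ∧ Real.exp (8 * Real.pi * H / ((b : ℝ) ^ q * η)) ≤ 2 := by
  obtain ⟨n, hn⟩ := exists_nat_ge (16 * Real.pi * H / η)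
  obtain ⟨q, hq⟩ : ∃ q : ℕ, q = (2 * H + 1) + n + n₀ := ⟨_, rfl⟩
  have hpow := Nat.lt_pow_self (n := q) (show 1 < b by omega)
  refine ⟨q, by omega, by omega, by omega, ?_⟩
  have h2 : (n : ℝ) ≤ (b : ℝ) ^ q := by
    have : n ≤ b ^ q := by omega
    exact_mod_cast this
  have hbq : (0 : ℝ) < (b : ℝ) ^ q := by
    have : (0 : ℝ) < b := by
      have : 0 < b := by omega
      exact_mod_cast this
    positivity
  have h4 : 8 * Real.pi * H / ((b : ℝ) ^ q * η) ≤ 1 / 2 := by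
    rw [div_le_iff₀ (by positivity)]
    have h5 := hn.trans h2
    rw [div_le_iff₀ hη] at h5
    linarith
  have h6 : Real.exp (1 / 2) ≤ 2 := by
    have h7 : Real.exp (1 / 2) ^ 2 ≤ 2 ^ 2 := by
      rw [← Real.exp_nat_mul]
      have := Real.exp_one_lt_d9
      norm_num
      linarith
    exact le_of_sq_le_sq h7 (by norm_num)
  exact (Real.exp_le_exp.2 h4).trans h6

/-- `E ≥ |D|` -/
lemma card_le_energy (x : ℕ) (S D : Finset ℕ) (f : ℕ → ℕ) (hD : D ⊆ range x)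
    (hf : ∀ n ∈ D, f n ≤ n ∧ f n ∈ S ∧ n - f n ∈ S) :
    (#D : ℝ) ≤ ∑ n ∈ range (2 * x), (#{a ∈ S ×ˢ S | a.1 + a.2 = n} : ℝ) ^ 2 := by
  have h2 : (#D : ℝ) = ∑ _n ∈ D, (1 : ℝ) := by rw [sum_const, nsmul_eq_mul, mul_one]
  rw [h2]
  have hDs : D ⊆ range (2 * x) := hD.trans (range_subset_range.2 (by omega))
  refine le_trans (sum_le_sum fun n hn => ?_)
    (sum_le_sum_of_subset_of_nonneg hDs fun _ _ _ => sq_nonneg _)
  have h2 : 0 < #{a ∈ S ×ˢ S | a.1 + a.2 = n} := by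
    refine card_pos.2 ⟨(f n, n - f n), ?_⟩
    refine mem_filter.2 ⟨mem_product.2 ⟨(hf n hn).2.1, (hf n hn).2.2⟩, ?_⟩
    exact Nat.add_sub_cancel' (hf n hn).1
  have h3 : (1 : ℝ) ≤ (#{a ∈ S ×ˢ S | a.1 + a.2 = n} : ℝ) := by exact_mod_cast h2
  nlinarith

/-- the number of unclean integers -/
lemma un_le (hUn : StUn) {b q r m K s n₁ : ℕ} (hb : 2 ≤ b) (hq : 1 ≤ q) (hrm : r + m * q ≤ K)
    (hq1 : n₁ + 1 ≤ q) (hs : 2 * m ≤ n₁ * s) :
    (#{n ∈ range (b ^ K) | s ≤ #{B ∈ range m | blk b q r B n = 0 ∨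
      blk b q r B n = b ^ q - 1}} : ℝ) ≤ Real.exp (-(m / 2)) * (b : ℝ) ^ K := by
  refine (hUn b q r m K s hb hq hrm).trans (mul_le_mul_of_nonneg_right ?_ (by positivity))
  have hb' : (2 : ℝ) ≤ b := by exact_mod_cast hb
  have h1 : 2 / (b : ℝ) ^ q ≤ (1 / 2) ^ n₁ := by
    have h2 : (2 : ℝ) ^ (n₁ + 1) ≤ (b : ℝ) ^ q :=
      (pow_le_pow_right₀ (by norm_num) hq1).trans (pow_le_pow_left₀ (by norm_num) hb' q)
    rw [one_div, inv_pow, div_le_iff₀ (by positivity), pow_succ] at *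
    rw [inv_mul_eq_div, le_div_iff₀ (by positivity)]
    linarith
  have h2 : (2 / (b : ℝ) ^ q) ^ s ≤ (1 / 2) ^ (2 * m) := by
    refine (pow_le_pow_left₀ (by positivity) h1 s).trans ?_
    rw [← pow_mul]
    exact pow_le_pow_of_le_one (by norm_num) (by norm_num) hs
  have h3 : (2 : ℝ) ^ m * (2 / (b : ℝ) ^ q) ^ s ≤ (1 / 2) ^ m := by
    refine (mul_le_mul_of_nonneg_left h2 (by positivity)).trans (le_of_eq ?_)
    rw [two_mul, pow_add, ← mul_assoc, ← mul_pow]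
    norm_num
  refine h3.trans ?_
  have h4 : (1 / 2 : ℝ) ≤ Real.exp (-(1 / 2)) := by
    have := Real.add_one_le_exp (-(1 / 2 : ℝ))
    linarith
  refine (pow_le_pow_left₀ (by norm_num) h4 m).trans (le_of_eq ?_)
  rw [← Real.exp_nat_mul]
  congr 1
  ring

/-- the loss -/
lemma loss_le {p th : ℝ} {m s : ℕ} (hp0 : 0 ≤ p) (hp1 : p ≤ 1 / 2) (hs : (s : ℝ) ≤ th * m + 1) :
    Real.exp (-(2 * th * p * m) - 1) ≤ (1 - p) ^ s := by
  have h1 : Real.exp (-(2 * p)) ≤ 1 - p := by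
    have h2 : Real.exp (2 * p) * (1 - p) ≥ 1 := by
      have h3 := Real.add_one_le_exp (2 * p)
      have h4 : (2 * p + 1) * (1 - p) ≥ 1 := by nlinarith
      have h5 := mul_le_mul_of_nonneg_right h3 (show 0 ≤ 1 - p by linarith)
      linarith
    rw [Real.exp_neg]
    rw [inv_le_iff_one_le_mul₀ (Real.exp_pos _)]
    linarith
  refine le_trans ?_ (pow_le_pow_left₀ (Real.exp_pos _).le h1 s)
  rw [← Real.exp_nat_mul]
  refine Real.exp_le_exp.2 ?_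
  have h2 : (s : ℝ) * (2 * p) ≤ (th * m + 1) * (2 * p) :=
    mul_le_mul_of_nonneg_right hs (by linarith)
  nlinarith

/-- the main estimate for one frame -/
lemma core (hA1 : StA1) (hA2 : StA2) (hA3 : StA3) (hA4 : StA4) (hM1 : StM1) (hM2 : StM2)
    (hNC : StNC) (hGC : StGC) (hPr : StPr) (hHv : StHv)
    {b q r m K H L v s : ℕ} {κ ε p Δ η th : ℝ} (hb : 2 ≤ b) (hq : 1 ≤ q) (hrm : r + m * q ≤ K)
    (hH : 1 ≤ H) (hHq : 2 * H < b ^ q) (hκ0 : 0 < κ) (hκ1 : κ ≤ 1)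
    (h3 : ∀ (T : Finset (Fin m → Fin (b ^ q))) (a : (Fin m → Fin (b ^ q)) → ℕ) (g : ℕ → ℕ),
      (∀ t ∈ T, (1 / b + ε / 8) * m ≤
        (#{B ∈ range m | a t / b ^ (r + (B + 1) * q - 1) % b = g B} : ℝ)) →
      (#T : ℝ) ^ 2 * Real.exp ((Δ * κ - Δ ^ 2) * m) ≤
        ∑ t ∈ T, ∑ t' ∈ T, R b q r m H Δ ((a t : ℤ) - a t'))
    (hp0 : 0 < p) (hp1 : p ≤ 1 / 2) (hpm : 1 ≤ p * m) (hη : η = κ / 16) (hΔ : Δ = η * p / 8)
    (hexp : Real.exp (8 * Real.pi * H / ((b : ℝ) ^ q * η)) ≤ 2)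
    (hth : th = κ ^ 2 / 4096) (hL1 : 1 ≤ L) (hL : 4 ≤ th * L) (hv : 1 ≤ v)
    (hpv : 4 * L * (v * p) ≤ ε / 8) (hs : (s : ℝ) ≤ th * m / 2 + 1)
    (S D C : Finset ℕ) (f : ℕ → ℕ) (J : ℕ → ℕ → ℕ) (T : ℕ → Finset ℕ)
    (hS : S ⊆ range (b ^ K)) (hD : D ⊆ range (b ^ K))
    (hf : ∀ n ∈ D, f n ≤ n ∧ f n ∈ S ∧ n - f n ∈ S)
    (hJ : ∀ B < m, #(T (pos q r B)) ≤ v ∧
      ∀ n n', (∀ j ∈ T (pos q r B), n / b ^ j % b = n' / b ^ j % b) →
      J (pos q r B) n = J (pos q r B) n')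
    (hag : ∀ n ∈ D, (1 / b + ε / 4) * m ≤
      (#{B ∈ range m | f n / b ^ pos q r B % b = J (pos q r B) n} : ℝ))
    (hC : C ⊆ D) (hCs : ∀ n ∈ C, #{B ∈ range m | blk b q r B n = 0 ∨
      blk b q r B n = b ^ q - 1} + 1 ≤ s) :
    (#C : ℝ) ^ 2 / (b : ℝ) ^ K * Real.exp (κ ^ 2 * p * m / 512 - 2) ≤
      8 * ∑ n ∈ range (2 * b ^ K), (#{a ∈ S ×ˢ S | a.1 + a.2 = n} : ℝ) ^ 2 := by
  have hx : (0 : ℝ) < (b : ℝ) ^ K := by
    have : (0 : ℝ) < b := by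
      have : 0 < b := by omega
      exact_mod_cast this
    positivity
  have hm0 : (0 : ℝ) ≤ m := Nat.cast_nonneg _
  have hη0 : 0 < η := by rw [hη]; positivity
  have hη1 : η ≤ 1 := by rw [hη]; linarith
  have hΔ0 : 0 < Δ := by rw [hΔ]; positivity
  have hΔη : Δ ≤ η / 16 := by
    rw [hΔ]
    nlinarith
  have hΔ1 : Δ ≤ 1 / 2 := by linarith
  have hηe : η = 8 * Δ / p := by
    rw [hΔ]
    field_simp
  have hp1' : p ≤ 1 := by linarith
  -- heavy blocks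
  obtain ⟨W, hW, hWβ⟩ := hHv q r m v L hq hL1 hv (fun B => T (pos q r B)) (fun B hB => (hJ B hB).1)
  have hWc : (#W : ℝ) ≤ th * m / 2 := by
    have h1 : (L : ℝ) * #W ≤ 2 * m := by exact_mod_cast hW
    have hL0 : (0 : ℝ) < L := by exact_mod_cast hL1
    have h2 : 4 * (m : ℝ) ≤ th * L * m := mul_le_mul_of_nonneg_right hL hm0
    have h3 : (L : ℝ) * #W ≤ L * (th * m / 2) := by linarith
    exact le_of_mul_le_mul_left h3 hL0
  -- cells
  have hcell : ∀ β ∈ act m p W, ∀ k, Good b q r β k → (#(mem b q r D β k) : ℝ) ^ 2 *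
      Real.exp ((Δ * κ - Δ ^ 2) * m) ≤
      ∑ τ : Fin m → Fin (b ^ q), ∑ τ' : Fin m → Fin (b ^ q),
        (if k + zb b q r β τ ∈ D ∧ k + zb b q r β τ' ∈ D then
          R b q r m H Δ ((f (k + zb b q r β τ) : ℤ) - f (k + zb b q r β τ')) else 0) := by
    intro β hβ k hk
    obtain ⟨hβ1, hβ2⟩ := (mem_filter.1 hβ).2
    refine cell_lower hNC hb hq h3 D f J T (fun B hB => (hJ B hB).2) hag β ?_ k hk
    have h4 := hWβ β hβ1
    have h5 : (#{B' ∈ range m | ∃ B ∈ β, ∃ j ∈ T (pos q r B'),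
        r + (B : ℕ) * q ≤ j ∧ j < r + (B + 2) * q} : ℝ) ≤ L * v * #β := by exact_mod_cast h4
    refine h5.trans ?_
    have h6 : (L : ℝ) * v * #β ≤ L * v * (4 * p * m) :=
      mul_le_mul_of_nonneg_left hβ2 (by positivity)
    have h7 : (L : ℝ) * v * (4 * p * m) = 4 * L * (v * p) * m := by ring
    rw [h7] at h6
    exact h6.trans (mul_le_mul_of_nonneg_right hpv hm0)
  have hR0 : ∀ d : ℤ, 0 ≤ R b q r m H Δ d := by
    intro d
    unfold R
    refine prod_nonneg fun B _ => ?_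
    have hk : |ka H ((d : ℝ) / (b : ℝ) ^ (r + (B + 1) * q))| ≤ 1 := by
      have hH' : (0 : ℝ) < 2 * H := by positivity
      unfold ka
      have hc : (#(Kz H) : ℝ) = 2 * H := by
        unfold Kz
        rw [card_erase_of_mem (by simp), Int.card_Icc]
        have : ((H : ℤ) + 1 - -(H : ℤ)).toNat - 1 = 2 * H := by omega
        rw [this]; push_cast; ring
      rw [abs_mul, abs_of_pos (by positivity), one_div, inv_mul_le_iff₀ hH', mul_one, ← hc]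
      refine (abs_sum_le_sum_abs _ _).trans ?_
      calc _ ≤ ∑ k ∈ Kz H, (1 : ℝ) := sum_le_sum fun k _ => Real.abs_cos_le_one _
        _ = _ := by rw [sum_const, nsmul_eq_mul, mul_one]
    have h1 := (abs_le.1 hk).1
    have h2 : Δ * ka H ((d : ℝ) / (b : ℝ) ^ (r + (B + 1) * q)) ≥ Δ * (-1) :=
      mul_le_mul_of_nonneg_left h1 hΔ0.le
    linarith
  -- sum over the cells
  have hs' : ∀ n ∈ C, #(bad b q r m n ∪ W) ≤ s + #W := by
    intro n hn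
    have h1 := card_bad b q r m n
    have h2 := hCs n hn
    have h3 := card_union_le (bad b q r m n) W
    omega
  have h4 := sum_cells hM1 hGC hPr hb hq hp0 hp1 hpm (Real.exp_pos ((Δ * κ - Δ ^ 2) * m)).le D hD
    (fun n n' => R b q r m H Δ ((f n : ℤ) - f n')) (fun n n' => hR0 _) W C hC (s + #W) hs' hcell
  have h5 := hM2 b q r m K H p Δ hb hH hΔ0 hΔ1 hp0.le hp1' S D f hf
  -- the main inequality
  have h6 := hA2 b q r m K H p Δ hb hrm hH S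
  have h7 := hA1 b q r m K H p Δ η hb hrm hH hHq hΔ0 hp0 hp1 hηe hη1 hexp S
  have h8 := hA3 (b ^ K) (by positivity) S
  have h9 := hA4 (b ^ K) S hS
  rw [← h8, ← h6] at h7
  push_cast at h7
  obtain ⟨E, hE⟩ : ∃ E : ℝ, E = ∑ n ∈ range (2 * b ^ K),
    (#{a ∈ S ×ˢ S | a.1 + a.2 = n} : ℝ) ^ 2 := ⟨_, rfl⟩
  rw [← hE] at h9 ⊢
  have hE0 : 0 ≤ E := by rw [hE]; exact sum_nonneg fun _ _ => sq_nonneg _
  have h10 : X b q r m K H p Δ S ≤ Real.exp (4 * Δ * η * m) * (2 * E) := by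
    have h11 : (b : ℝ) ^ K * X b q r m K H p Δ S ≤
        (b : ℝ) ^ K * ((1 + 4 * Δ * η) ^ m * Ecyc (b ^ K) S) := by
      refine h7.trans (le_of_eq ?_)
      ring
    have h12 := le_of_mul_le_mul_left h11 hx
    have h13 : (1 + 4 * Δ * η) ^ m ≤ Real.exp (4 * Δ * η * m) := by
      have h14 : 1 + 4 * Δ * η ≤ Real.exp (4 * Δ * η) := by
        have := Real.add_one_le_exp (4 * Δ * η)
        linarith
      refine (pow_le_pow_left₀ (by positivity) h14 m).trans (le_of_eq ?_)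
      rw [← Real.exp_nat_mul]
      congr 1
      ring
    refine h12.trans ((mul_le_mul_of_nonneg_left h9 (by positivity)).trans ?_)
    exact mul_le_mul_of_nonneg_right h13 (by positivity)
  -- combine
  have h11 : (#C * (1 / 2 * (1 - p) ^ (s + #W))) ^ 2 * Real.exp ((Δ * κ - Δ ^ 2) * m) ≤
      (b : ℝ) ^ K * (Real.exp (4 * Δ * η * m) * (2 * E)) :=
    h4.trans (mul_le_mul_of_nonneg_left (h5.trans h10) hx.le)
  have hsW : ((s + #W : ℕ) : ℝ) ≤ th * m + 1 := by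
    push_cast
    linarith
  have h12 := loss_le hp0.le hp1 hsW
  have h13 : (#C : ℝ) * (1 / 2 * Real.exp (-(2 * th * p * m) - 1)) ≤
      #C * (1 / 2 * (1 - p) ^ (s + #W)) :=
    mul_le_mul_of_nonneg_left (mul_le_mul_of_nonneg_left h12 (by norm_num)) (Nat.cast_nonneg _)
  have h14 := pow_le_pow_left₀ (mul_nonneg (Nat.cast_nonneg _)
    (mul_nonneg (by norm_num) (Real.exp_pos _).le)) h13 2
  have h15 := (mul_le_mul_of_nonneg_right h14
    (Real.exp_pos ((Δ * κ - Δ ^ 2) * m)).le).trans h11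
  have h16 : ((#C : ℝ) * (1 / 2 * Real.exp (-(2 * th * p * m) - 1))) ^ 2 =
      (#C : ℝ) ^ 2 / 4 * Real.exp (-(4 * th * p * m) - 2) := by
    have e1 : Real.exp (-(4 * th * p * m) - 2) = Real.exp (-(2 * th * p * m) - 1) ^ 2 := by
      rw [← Real.exp_nat_mul]
      congr 1
      push_cast
      ring
    rw [e1]
    ring
  rw [h16] at h15
  have h17 : κ ^ 2 * p * m / 512 - 2 + 4 * Δ * η * m ≤
      -(4 * th * p * m) - 2 + (Δ * κ - Δ ^ 2) * m := by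
    have e1 : Δ = κ * p / 128 := by rw [hΔ, hη]; ring
    have h18 : Δ ^ 2 ≤ Δ * (κ / 4) := by
      rw [sq]
      refine mul_le_mul_of_nonneg_left ?_ hΔ0.le
      rw [hη] at hΔη
      linarith
    have h19 : 4 * Δ * η = Δ * (κ / 4) := by rw [hη]; ring
    have h20 : Δ * κ = κ ^ 2 * p / 128 := by rw [e1]; ring
    have h21 : 0 ≤ κ ^ 2 * p := by positivity
    have h22 : κ ^ 2 * p / 512 + 4 * Δ * η + 4 * th * p ≤ Δ * κ - Δ ^ 2 := by
      rw [h19, hth]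
      have e2 : Δ * (κ / 4) = κ ^ 2 * p / 512 := by rw [e1]; ring
      rw [e2] at h18 ⊢
      rw [h20]
      have e3 : 4 * (κ ^ 2 / 4096) * p = κ ^ 2 * p / 1024 := by ring
      rw [e3]
      linarith
    have h23 := mul_le_mul_of_nonneg_right h22 hm0
    have e4 : (κ ^ 2 * p / 512 + 4 * Δ * η + 4 * th * p) * m =
        κ ^ 2 * p * m / 512 + 4 * Δ * η * m + 4 * th * p * m := by ring
    rw [e4] at h23
    linarith
  have h18 := Real.exp_le_exp.2 h17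
  rw [Real.exp_add, Real.exp_add] at h18
  have h19 : (#C : ℝ) ^ 2 / 4 * (Real.exp (κ ^ 2 * p * m / 512 - 2) * Real.exp (4 * Δ * η * m)) ≤
      (b : ℝ) ^ K * (Real.exp (4 * Δ * η * m) * (2 * E)) := by
    refine le_trans (mul_le_mul_of_nonneg_left h18 (div_nonneg (sq_nonneg _) (by norm_num)))
      (le_trans (le_of_eq ?_) h15)
    ring
  have h20 : Real.exp (4 * Δ * η * m) * ((#C : ℝ) ^ 2 / 4 * Real.exp (κ ^ 2 * p * m / 512 - 2)) ≤
      Real.exp (4 * Δ * η * m) * ((b : ℝ) ^ K * (2 * E)) := by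
    refine le_trans (le_of_eq ?_) (h19.trans (le_of_eq ?_)) <;> ring
  have h21 := le_of_mul_le_mul_left h20 (Real.exp_pos _)
  rw [div_mul_eq_mul_div, div_le_iff₀ hx]
  linarith

end Pool.Agent.Helper7.SC.DP
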