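import Pool.Agent.Helper7.SC.DP.Clause

set_option autoImplicit false

/-!
The few digits clause for the set of the integers with a guessed representation.
-/

namespace Pool.Agent.Helper7.SC.DP

open Finset Pool.Agent.Helper57.U2

open Classical in
/-- The integers `n` below `b ^ K` with a representation `n = a + a'`, `a` and `a'` in `A`, such
that `J i n` is the digit of `a` at position `i` for at least `(1 / b + ε) K` of the `i < K`. -/
noncomputable def guessed (b K : ℕ) (ε : ℝ) (A : Set ℕ) (J : ℕ → ℕ → ℕ) : Finset ℕ :=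
  {n ∈ range (b ^ K) | ∃ a ∈ A, ∃ a' ∈ A, a + a' = n ∧
    (1 / b + ε) * K ≤ (#{i ∈ range K | J i n = digit b i a} : ℝ)}

theorem dpset (b : ℕ) (hb : 2 ≤ b) (ε : ℝ) (hε : 0 < ε) :
    ∃ c : ℝ, 0 < c ∧ ∀ (A : Set ℕ) (K v : ℕ) (J : ℕ → ℕ → ℕ), 1 ≤ v →
      (∀ i < K, FewDigits b v (J i)) →
      c * (#(guessed b K ε A J) : ℝ) ^ 2 * Real.exp (c * K / v) ≤
        (b : ℝ) ^ K * ∑ n ∈ range (2 * b ^ K), (rep A n : ℝ) ^ 2 := by
  classical
  obtain ⟨c, hc, h⟩ := sparse_clause b hb ε hε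
  refine ⟨c, hc, fun A K v J hv hJ => ?_⟩
  have hx : (0 : ℝ) < (b : ℝ) ^ K := by
    have : (0 : ℝ) < b := by
      have : 0 < b := by omega
      exact_mod_cast this
    positivity
  obtain ⟨D, hD⟩ : ∃ D : Set ℕ, D = {n | ∃ a ∈ A, ∃ a' ∈ A, a + a' = n ∧
      (1 / b + ε) * K ≤ (#{i ∈ range K | J i n = digit b i a} : ℝ)} := ⟨_, rfl⟩
  have hsel : ∀ n, ∃ a, n ∈ D → a ≤ n ∧ a ∈ A ∧ n - a ∈ A ∧
      (1 / b + ε) * K ≤ (#{i ∈ range K | J i n = digit b i a} : ℝ) := by
    intro n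
    by_cases hn : n ∈ D
    · have hn' := hn
      rw [hD] at hn'
      obtain ⟨a, ha, a', ha', hs, hg⟩ := hn'
      refine ⟨a, fun _ => ⟨by omega, ha, ?_, hg⟩⟩
      have : n - a = a' := by omega
      rw [this]
      exact ha'
    · exact ⟨0, fun h' => absurd h' hn⟩
  choose f hf using hsel
  have hup : upTo D (b ^ K) = guessed b K ε A J := by
    unfold upTo guessed
    ext n
    rw [mem_filter, mem_filter, hD]
    rfl
  have hg : Guesses b K ε D f J := by
    unfold Guesses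
    have h1 : ∀ n ∈ upTo D (b ^ K), (1 / (b : ℝ) + ε) * K ≤
        (#{i ∈ range K | J i n = digit b i (f n)} : ℝ) := by
      intro n hn
      unfold upTo at hn
      exact (hf n (mem_filter.1 hn).2).2.2.2
    refine le_trans (le_of_eq ?_) (sum_le_sum h1)
    rw [sum_const, nsmul_eq_mul]
    ring
  have h2 := h A D f (fun n hn => ⟨(hf n hn).1, (hf n hn).2.1, (hf n hn).2.2.1⟩) K J hg v hv hJ
  rw [hup, div_mul_eq_mul_div, div_le_iff₀ hx] at h2
  rw [mul_comm ((b : ℝ) ^ K)]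
  exact h2

end Pool.Agent.Helper7.SC.DP
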